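import Pool.Agent.Q269.GJ.StE

/-!
# Project GJ of helper269, job GJ-ABS (by helper224)
-/

set_option autoImplicit false
set_option linter.all false

open scoped Classical
open Finset

namespace Pool.Agent.Q224.GJ

open Pool.Agent.Q269.GJ
open Pool.Agent.Q269.GR (dl)

/-- the summand -/
noncomputable def gd (R r : ℕ) : ℝ := if OO R r then (r : ℝ) * dl r else 0

/-- the factor -/
noncomputable def fd (R r : ℕ) : ℝ := if OO R r then (1 - dl r) ^ r else 1

theorem one_sub_le_prod2 (g F : ℕ → ℝ) (h0 : ∀ r, 0 ≤ F r) (h1 : ∀ r, F r ≤ 1)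
    (h2 : ∀ r, 1 - g r ≤ F r) (s : Finset ℕ) :
    1 - ∑ r ∈ s, g r ≤ ∏ r ∈ s, F r := by
  induction s using Finset.induction_on with
  | empty => simp
  | insert a s ha ih =>
    rw [Finset.sum_insert ha, Finset.prod_insert ha]
    have h3 : ∏ r ∈ s, F r ≤ 1 := Finset.prod_le_one (fun r _ => h0 r) (fun r _ => h1 r)
    have h4 := h0 a
    have h5 := h1 a
    have h6 := h2 a
    nlinarith [mul_nonneg (sub_nonneg.2 h5) (sub_nonneg.2 h3)]

/-- **JOB GJ-ABS** -/
theorem t_ABS (h : S_SMD) : S_ABS := by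
  intro R
  obtain ⟨h01, hsum⟩ := h R
  have hg0 : ∀ r, 0 ≤ gd R r := by
    intro r
    unfold gd
    split_ifs with h1
    · exact mul_nonneg (Nat.cast_nonneg _) (h01 r h1).1
    · exact le_rfl
  have hf0 : ∀ r, 0 < fd R r := by
    intro r
    unfold fd
    split_ifs with h1
    · exact pow_pos (by linarith [(h01 r h1).2]) _
    · exact zero_lt_one
  have hf1 : ∀ r, fd R r ≤ 1 := by
    intro r
    unfold fd
    split_ifs with h1
    · exact pow_le_one₀ (by linarith [(h01 r h1).2]) (by linarith [(h01 r h1).1])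
    · exact le_rfl
  have hfg : ∀ r, 1 - gd R r ≤ fd R r := by
    intro r
    unfold fd gd
    split_ifs with h1
    · have h2 := one_add_mul_le_pow (a := - dl r) (by linarith [(h01 r h1).2]) r
      have e1 : (1 : ℝ) + -dl r = 1 - dl r := by ring
      rw [e1] at h2
      have e2 : (1 : ℝ) + r * -dl r = 1 - r * dl r := by ring
      rw [e2] at h2
      exact h2
    · rw [sub_zero]
  have hgs : Summable (gd R) := hsum
  have htl : ∀ y, tl R y = ∑' i, gd R (i + (y + 1)) := by
    intro y
    have e1 : (fun r : ℕ => if OO R r ∧ y < r then (r : ℝ) * dl r else 0) =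
        fun r => if y < r then gd R r else 0 := by
      funext r
      unfold gd
      by_cases c1 : OO R r
      · by_cases c2 : y < r
        · rw [if_pos ⟨c1, c2⟩, if_pos c2, if_pos c1]
        · rw [if_neg (fun c => c2 c.2), if_neg c2]
      · rw [if_neg (fun c => c1 c.1)]
        rw [if_neg c1]
        split_ifs <;> rfl
    unfold tl
    rw [e1]
    have hs : Summable fun r => if y < r then gd R r else 0 := by
      refine Summable.of_nonneg_of_le (fun r => ?_) (fun r => ?_) hgs
      · split_ifs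
        · exact hg0 r
        · exact le_rfl
      · split_ifs
        · exact le_rfl
        · exact hg0 r
    rw [← hs.sum_add_tsum_nat_add (y + 1)]
    have e2 : ∑ i ∈ range (y + 1), (if y < i then gd R i else 0) = 0 := by
      apply Finset.sum_eq_zero
      intro i hi
      rw [Finset.mem_range] at hi
      rw [if_neg (by omega)]
    rw [e2, zero_add]
    apply tsum_congr
    intro i
    rw [if_pos (by omega)]
  have hnn : ∀ y, 0 ≤ tl R y := fun y => by
    rw [htl]
    exact tsum_nonneg fun i => hg0 _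
  have hlim : Filter.Tendsto (tl R) Filter.atTop (nhds 0) := by
    have h1 : Filter.Tendsto (fun i => ∑' k, gd R (k + i)) Filter.atTop (nhds 0) :=
      tendsto_sum_nat_add (gd R)
    have h2 := h1.comp (Filter.tendsto_add_atTop_nat 1)
    refine h2.congr fun y => ?_
    rw [htl]
    rfl
  have hprod : ∀ y, ∏ r ∈ (range (y + 1)).filter (OO R), (1 - dl r) ^ r =
      ∏ r ∈ range (y + 1), fd R r := by
    intro y
    rw [Finset.prod_filter]
    refine Finset.prod_congr rfl fun r _ => ?_
    unfold fd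
    rfl
  refine ⟨?_, hnn, hlim⟩
  obtain ⟨y₀, hy₀⟩ := (hlim.eventually (gt_mem_nhds (show (0 : ℝ) < 1 / 2 by norm_num))).exists
  set P := ∏ r ∈ range (y₀ + 1), fd R r with hP
  have hP0 : 0 < P := Finset.prod_pos fun r _ => hf0 r
  obtain ⟨y, hy, hyy⟩ := ((hlim.eventually (gt_mem_nhds (show (0 : ℝ) < P / 2 by linarith))).and
    (Filter.eventually_ge_atTop y₀)).exists
  refine ⟨y, ?_⟩
  rw [hprod, ← Finset.prod_range_mul_prod_Ico _ (show y₀ + 1 ≤ y + 1 by omega), ← hP]
  have h1 := one_sub_le_prod2 (gd R) (fd R) (fun r => (hf0 r).le) hf1 hfg (Finset.Ico (y₀ + 1) (y + 1))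
  have h2 : ∑ r ∈ Finset.Ico (y₀ + 1) (y + 1), gd R r ≤ tl R y₀ := by
    rw [htl, Finset.sum_Ico_eq_sum_range]
    have hs' : Summable fun i => gd R (i + (y₀ + 1)) := (summable_nat_add_iff (y₀ + 1)).2 hgs
    have h3 := hs'.sum_le_tsum (range (y + 1 - (y₀ + 1))) (fun i _ => hg0 _)
    refine le_trans (le_of_eq ?_) h3
    refine Finset.sum_congr rfl fun i _ => ?_
    rw [add_comm]
  nlinarith

end Pool.Agent.Q224.GJ
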