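import Pool.Agent.Q150.GR.Cell
import Pool.Agent.Q269.GJ.StE

/-!
# Project GJ (helper269), jobs ENA, EB1: the uniform estimates in a cell

This generalises `cell_at`, `cell_unif` of `Pool/Agent/Q150/GR/Cell.lean` (helper150).
-/

set_option autoImplicit false
set_option linter.all false

open scoped Classical
open Finset Polynomial

namespace Pool.Agent.Q224.GJ

open Pool.Agent.Q269.GR (F2 dl Irn Dn pr xi Pfam dg Ce IsCe erT tn XA Fr)
open Pool.Agent.Q269.GJ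
open Pool.Agent.Y164.PS (L sg)
open Pool.Agent.Y164.HG (Geo Del)
open Pool.Agent.Q150.GR (mem_XA xa_move xa_inj xa_sub num_err num_hyn TyA)

variable {k : Type} [Field k] [Fintype k]

theorem num_nn {t n : ℕ} (ht : 64 * (n + 1) ≤ t) {σ lam : ℕ} (h1 : 100 * σ ≤ t) (h2 : t ^ 2 ≤ 8 * lam) :
    (2 : ℝ) ^ (n ^ 2 + 2 + CG n σ) * (5 / 6) ^ lam ≤ 2 ^ (17 * n ^ 2 + 66) / 2 ^ t := by
  have h3 : 8 * ((n + 1) * t) ≤ lam := by
    have : 64 * (n + 1) * t ≤ t * t := Nat.mul_le_mul_right t ht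
    nlinarith
  have h4 : (5 / 6 : ℝ) ^ lam ≤ (5 / 6) ^ (8 * ((n + 1) * t)) :=
    pow_le_pow_of_le_one (by norm_num) (by norm_num) h3
  have h5 : (5 / 6 : ℝ) ^ (8 * ((n + 1) * t)) ≤ (1 / 4) ^ ((n + 1) * t) := by
    rw [pow_mul]
    exact pow_le_pow_left₀ (by norm_num) (by norm_num) _
  have h6 : n ^ 2 + 2 + CG n σ ≤ 17 * n ^ 2 + 66 + (n + 1) * t := by
    unfold CG
    have : n * (100 * σ) ≤ n * t := Nat.mul_le_mul_left n h1
    nlinarith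
  have h7 : (2 : ℝ) ^ (n ^ 2 + 2 + CG n σ) ≤ 2 ^ (17 * n ^ 2 + 66 + (n + 1) * t) :=
    pow_le_pow_right₀ (by norm_num) h6
  calc (2 : ℝ) ^ (n ^ 2 + 2 + CG n σ) * (5 / 6) ^ lam ≤
        2 ^ (17 * n ^ 2 + 66 + (n + 1) * t) * (1 / 4) ^ ((n + 1) * t) :=
        mul_le_mul h7 (h4.trans h5) (by positivity) (by positivity)
    _ = 2 ^ (17 * n ^ 2 + 66) / 2 ^ ((n + 1) * t) := by
        have : (1 / 4 : ℝ) ^ ((n + 1) * t) = 1 / (2 ^ ((n + 1) * t) * 2 ^ ((n + 1) * t)) := by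
          rw [← mul_pow, div_pow, one_pow]; norm_num
        rw [this, pow_add (2 : ℝ) (17 * n ^ 2 + 66)]
        have h0 : (2 : ℝ) ^ ((n + 1) * t) ≠ 0 := by positivity
        field_simp
    _ ≤ 2 ^ (17 * n ^ 2 + 66) / 2 ^ t := by
        apply div_le_div_of_nonneg_left (by positivity) (by positivity)
        exact pow_le_pow_right₀ (by norm_num) (by nlinarith)

theorem cell_at (h4 : Pool.Agent.Q269.GR.S_ERA) (h7 : Pool.Agent.Q269.GR.S_PRD) {n : ℕ} {a : Fin n → k[X]} {N₀ : ℕ}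
    (H : Geo a N₀) (hq : 5 ≤ Fintype.card k) {d₀ : ℕ} (hd₀ : ∀ d ≥ d₀, Eqd a d)
    {m : ℕ} (ht : 64 * (n + 1) ≤ tn m) (ht0 : d₀ ≤ tn m)
    (htΔ : (Del a).natDegree + n ^ 2 + 3 ≤ tn m) {M : ℕ} {P0 : Fin M → k[X]}
    (hc : IsCe (Del a) P0 (univ.filter fun i => tn m ^ 40 < dg P0 i))
    (hX : ∏ i, P0 i ∈ XA (Del a) m) {R : Finset (ℕ × ℕ)} (hR : IsR R)
    (hRs : ∑ p ∈ R, p.1 ≤ tn m ^ 8) {N : ℕ} (hN0 : 0 < N) (hN : N ≤ tn m ^ 8) :
    (∀ p ∈ R, Hyn a P0 (univ.filter fun i => tn m ^ 40 < dg P0 i) p.1) ∧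
    ∑ p ∈ R, nn n P0 (univ.filter fun i => tn m ^ 40 < dg P0 i) p.1 ≤
      (tn m : ℝ) ^ 8 * (2 ^ (17 * n ^ 2 + 66) / 2 ^ tn m) ∧
    erT N P0 (univ.filter fun i => tn m ^ 40 < dg P0 i) (2 ^ eT n (Del a) M R) ≤
      (tn m : ℝ) ^ 24 / 2 ^ tn m := by
  obtain ⟨-, hty⟩ := (mem_XA h7 H.del_ne hc.fam).1 hX
  generalize tn m = t at ht ht0 htΔ hc hRs hN hty ⊢
  obtain ⟨y1, y2, y3, y4⟩ := hty
  obtain ⟨mv, hmv⟩ : ∃ mv : Finset (Fin M), mv = univ.filter fun i => t ^ 40 < dg P0 i := ⟨_, rfl⟩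
  rw [← hmv] at hc ⊢
  have ht64 : 64 ≤ t := by nlinarith
  have hmem : ∀ i, i ∈ mv ↔ t ^ 40 < dg P0 i := fun i => by rw [hmv, mem_filter]; simp
  have hfix : univ.filter (· ∉ mv) = univ.filter fun i => dg P0 i ≤ t ^ 40 := by
    ext i
    rw [mem_filter, mem_filter, hmem, not_lt]
  have hlam : ∀ r, smv P0 mv r =
      (univ.filter fun i => t ^ 40 < dg P0 i ∧ r ∣ dg P0 i).card := fun r => by
    unfold smv
    rw [hmv, filter_filter]
  have hr8 : ∀ p ∈ R, p.1 ≤ t ^ 8 := fun p hp => (single_le_sum (f := fun p : ℕ × ℕ => p.1)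
    (fun _ _ => Nat.zero_le _) hp).trans hRs
  have hσ : ∀ r, sfx P0 mv r ≤
      (univ.filter fun i => dg P0 i ≤ t ^ 40).card := fun r => by
    unfold sfx
    rw [← hfix]
    exact card_le_card fun i hi => by
      rw [mem_filter] at hi ⊢
      exact ⟨hi.1, hi.2.1⟩
  have hσ' : ∀ r, 100 * sfx P0 mv r ≤ t := fun r =>
    (Nat.mul_le_mul_left _ (hσ r)).trans y2
  refine ⟨fun p hp => ⟨fun j hj => hd₀ _ ?_, ?_, ?_⟩, ?_, ?_⟩
  · have h1 := (hmem j).1 hj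
    have h2 : t ≤ t ^ 40 := Nat.le_self_pow (by norm_num) t
    omega
  · intro j hj
    have hj' := (hmem j).1 hj
    apply num_hyn (by omega) (by omega) (hr8 p hp) _ hj'
    rw [hfix]
    have h1 : ∑ i ∈ univ.filter (fun i => dg P0 i ≤ t ^ 40), (dg P0 i : ℝ) ≤
        ∑ _i ∈ univ.filter (fun i => dg P0 i ≤ t ^ 40), (t : ℝ) ^ 40 := by
      apply sum_le_sum
      intro i hi
      have := (mem_filter.1 hi).2
      exact_mod_cast this
    refine h1.trans ?_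
    rw [sum_const, nsmul_eq_mul]
    have h2 : ((univ.filter (fun i => dg P0 i ≤ t ^ 40)).card : ℝ) ≤ t := by
      have : (univ.filter (fun i => dg P0 i ≤ t ^ 40)).card ≤ t := by omega
      exact_mod_cast this
    calc ((univ.filter (fun i => dg P0 i ≤ t ^ 40)).card : ℝ) * (t : ℝ) ^ 40 ≤ t * (t : ℝ) ^ 40 :=
          mul_le_mul_of_nonneg_right h2 (by positivity)
      _ = (t : ℝ) ^ 41 := by ring
  · have h1 := hσ' p.1
    have h2 := y4 p.1 (hR.1 p hp).1 (hR.1 p hp).2.1 (hr8 p hp)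
    rw [← hlam] at h2
    nlinarith
  · have h1 : ∀ p ∈ R, nn n P0 mv p.1 ≤ 2 ^ (17 * n ^ 2 + 66) / 2 ^ t := by
      intro p hp
      unfold nn
      apply num_nn ht (hσ' p.1)
      rw [hlam]
      exact y4 p.1 (hR.1 p hp).1 (hR.1 p hp).2.1 (hr8 p hp)
    refine (sum_le_sum h1).trans ?_
    rw [sum_const, nsmul_eq_mul]
    apply mul_le_mul_of_nonneg_right _ (by positivity)
    have h2 : R.card ≤ t ^ 8 := by
      refine le_trans ?_ hRs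
      rw [card_eq_sum_ones]
      exact sum_le_sum fun p hp => (hR.1 p hp).2.1.le
    exact_mod_cast h2
  · refine (h4 k hq _ N M (t ^ 40) P0 mv hN0 hc (fun i hi => (hmem i).1 hi) (2 ^ eT n (Del a) M R)
      (by positivity)).trans ?_
    exact num_err (δ := (Del a).natDegree + n ^ 2) (by omega) htΔ y1 hRs hN (by unfold eT; ring)

theorem tends40 : Filter.Tendsto (fun t : ℕ => (t : ℝ) ^ 40 / 2 ^ t) Filter.atTop (nhds 0) :=
  tendsto_pow_const_div_const_pow_of_one_lt 40 (by norm_num)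

/-- **The uniform estimates**: eventually in `m`, for all cells of `XA`, all finite sets `R` as in `IsR`
with the sum of the orders at most `t ^ 8` and all `0 < N ≤ t ^ 8`. -/
theorem cell_unif (h4 : Pool.Agent.Q269.GR.S_ERA) (h5 : S_GEN) (h6 : Pool.Agent.Q269.GR.S_TNP)
    (h7 : Pool.Agent.Q269.GR.S_PRD) {n : ℕ} {a : Fin n → k[X]} {N₀ : ℕ}
    (H : Geo a N₀) (hq : 5 ≤ Fintype.card k) {ε : ℝ} (hε : 0 < ε) : ∀ᶠ m : ℕ in Filter.atTop,
    (Del a).natDegree < tn m ^ 40 ∧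
    ∀ (M : ℕ) (P0 : Fin M → k[X]),
    IsCe (Del a) P0 (univ.filter fun i => tn m ^ 40 < dg P0 i) →
    ∏ i, P0 i ∈ XA (Del a) m → ∀ R : Finset (ℕ × ℕ), IsR R →
    ∑ p ∈ R, p.1 ≤ tn m ^ 8 → ∀ N : ℕ, 0 < N → N ≤ tn m ^ 8 →
    (∀ p ∈ R, Hyn a P0 (univ.filter fun i => tn m ^ 40 < dg P0 i) p.1) ∧
    (tn m : ℝ) ^ 16 * (∑ p ∈ R, nn n P0 (univ.filter fun i => tn m ^ 40 < dg P0 i) p.1 +
      2 * erT N P0 (univ.filter fun i => tn m ^ 40 < dg P0 i) (2 ^ eT n (Del a) M R)) ≤ ε := by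
  obtain ⟨d₀, hd₀⟩ := h5 k n a N₀ H
  have hT := h6.1
  obtain ⟨c, hcd⟩ : ∃ c : ℝ, c = 2 ^ (17 * n ^ 2 + 66) := ⟨_, rfl⟩
  have hc0 : 0 < c := by rw [hcd]; positivity
  have e1 : ∀ᶠ t : ℕ in Filter.atTop, (t : ℝ) ^ 40 / 2 ^ t ≤ ε / (c + 2) := by
    have := tends40.eventually (gt_mem_nhds (show (0:ℝ) < ε / (c + 2) by positivity))
    filter_upwards [this] with t ht using ht.le
  filter_upwards [hT.eventually e1, hT.eventually (Filter.eventually_ge_atTop (64 * (n + 1))),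
    hT.eventually (Filter.eventually_ge_atTop d₀),
    hT.eventually (Filter.eventually_ge_atTop ((Del a).natDegree + n ^ 2 + 3))] with m n1 n2 n3 n4
  refine ⟨?_, fun M P0 hc hX R hR hRs N hN0 hN => ?_⟩
  · have h2 : tn m ≤ tn m ^ 40 := Nat.le_self_pow (by norm_num) _
    omega
  obtain ⟨c1, c2, c3⟩ := cell_at h4 h7 H hq hd₀ n2 n3 n4 hc hX hR hRs hN0 hN
  refine ⟨c1, ?_⟩
  rw [← hcd] at c2
  have ht1 : (1 : ℝ) ≤ tn m := by
    have : 1 ≤ tn m := by omega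
    exact_mod_cast this
  have h8 : (0 : ℝ) < 2 ^ tn m := by positivity
  have h16 : (tn m : ℝ) ^ 24 ≤ (tn m : ℝ) ^ 40 := pow_le_pow_right₀ ht1 (by norm_num)
  have k1 : (tn m : ℝ) ^ 16 * ((tn m : ℝ) ^ 8 * (c / 2 ^ tn m)) ≤
      c * ((tn m : ℝ) ^ 40 / 2 ^ tn m) := by
    have : (tn m : ℝ) ^ 16 * ((tn m : ℝ) ^ 8 * (c / 2 ^ tn m)) =
        c * ((tn m : ℝ) ^ 24 / 2 ^ tn m) := by ring
    rw [this]
    apply mul_le_mul_of_nonneg_left _ hc0.le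
    exact div_le_div_of_nonneg_right h16 h8.le
  have k3 : (tn m : ℝ) ^ 16 * (∑ p ∈ R, nn n P0 (univ.filter fun i => tn m ^ 40 < dg P0 i) p.1 +
      2 * erT N P0 (univ.filter fun i => tn m ^ 40 < dg P0 i) (2 ^ eT n (Del a) M R)) ≤
      (tn m : ℝ) ^ 16 * ((tn m : ℝ) ^ 8 * (c / 2 ^ tn m) + 2 * ((tn m : ℝ) ^ 24 /
        2 ^ tn m)) := by
    apply mul_le_mul_of_nonneg_left _ (by positivity)
    linarith
  refine k3.trans ?_
  rw [mul_add]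
  have k4 : (tn m : ℝ) ^ 16 * (2 * ((tn m : ℝ) ^ 24 / 2 ^ tn m)) =
      2 * ((tn m : ℝ) ^ 40 / 2 ^ tn m) := by ring
  rw [k4]
  rw [le_div_iff₀ (by positivity)] at n1
  nlinarith

end Pool.Agent.Q224.GJ
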