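import Pool.Agent.Q269.GJ.StE

/-!
# Project GJ (helper269), job GJ-DNS
-/

set_option autoImplicit false
set_option linter.all false

open scoped Classical
open Finset

namespace Pool.Agent.Q224.GJ

open Pool.Agent.Q269.GJ

theorem t_DNS (h : Pool.Agent.Q269.GR.S_ORD) : S_DNS := by
  intro ε hε
  obtain ⟨g, hg⟩ : ∃ g : ℕ → ℝ, g = fun r : ℕ => if Odd r then (2 : ℝ) ^ (-(1 / 8 * (orderOf (2 : ZMod r) : ℝ))) else 0 :=
    ⟨_, rfl⟩
  have hs : Summable g := by rw [hg]; exact h (1 / 8) (by norm_num)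
  have hg0 : ∀ r, 0 ≤ g r := by
    intro r
    rw [hg]
    beta_reduce
    split_ifs
    · positivity
    · exact le_rfl
  obtain ⟨s, hs⟩ := (summable_iff_vanishing_norm.1 hs) ε hε
  refine ⟨s.sup id, ?_⟩
  intro R hR x
  obtain ⟨T, hT⟩ : ∃ T : Finset ℕ, T = (Icc 1 x).filter (fun r => Odd r ∧ R < r ∧ 2 ^ orderOf (2 : ZMod r) < r ^ 8) :=
    ⟨_, rfl⟩
  have hdis : Disjoint T s := by
    rw [Finset.disjoint_left]
    intro r hr hrs
    rw [hT, mem_filter] at hr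
    have h1 : r ≤ s.sup id := Finset.le_sup (f := id) hrs
    omega
  have h1 := hs T hdis
  rw [Real.norm_of_nonneg (sum_nonneg (fun r _ => hg0 r))] at h1
  have hsub : (Icc 1 x).filter (fun e => Odd e ∧ ∃ r : ℕ, r ∣ e ∧ R < r ∧ 2 ^ orderOf (2 : ZMod r) < r ^ 8) ⊆
      T.biUnion (fun r => (Icc 1 x).filter (fun e => r ∣ e)) := by
    intro e he
    rw [mem_filter, mem_Icc] at he
    obtain ⟨⟨he1, he2⟩, ho, r, hre, hRr, hlt⟩ := he
    rw [mem_biUnion]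
    refine ⟨r, ?_, ?_⟩
    · rw [hT, mem_filter, mem_Icc]
      have := Nat.le_of_dvd (by omega) hre
      exact ⟨⟨by omega, by omega⟩, ho.of_dvd_nat hre, hRr, hlt⟩
    · rw [mem_filter, mem_Icc]
      exact ⟨⟨he1, he2⟩, hre⟩
  have hc : ∀ r ∈ T, (((Icc 1 x).filter (fun e => r ∣ e)).card : ℝ) ≤ x * g r := by
    intro r hr
    rw [hT, mem_filter, mem_Icc] at hr
    obtain ⟨⟨hr1, -⟩, ho, -, hlt⟩ := hr
    have h2 : ((Icc 1 x).filter (fun e => r ∣ e)).card = x / r := by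
      rw [← Nat.Ioc_filter_dvd_card_eq_div x r]
      congr 1
    rw [h2]
    refine (Nat.cast_div_le).trans ?_
    rw [div_eq_mul_inv]
    refine mul_le_mul_of_nonneg_left ?_ (Nat.cast_nonneg x)
    rw [hg]
    beta_reduce
    rw [if_pos ho, Real.rpow_neg (by norm_num)]
    have hr0 : (0 : ℝ) < r := by exact_mod_cast hr1
    refine inv_anti₀ (by positivity) ?_
    have h3 : (2 : ℝ) ^ ((orderOf (2 : ZMod r) : ℕ) : ℝ) ≤ (r : ℝ) ^ ((8 : ℕ) : ℝ) := by
      rw [Real.rpow_natCast, Real.rpow_natCast]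
      exact_mod_cast hlt.le
    have h4 := Real.rpow_le_rpow (by positivity) h3 (show (0 : ℝ) ≤ 1 / 8 by norm_num)
    rw [← Real.rpow_mul (by norm_num), ← Real.rpow_mul hr0.le] at h4
    have e1 : ((8 : ℕ) : ℝ) * (1 / 8) = 1 := by norm_num
    rw [e1, Real.rpow_one, mul_comm] at h4
    exact h4
  calc (((Icc 1 x).filter fun e => Odd e ∧ ∃ r : ℕ, r ∣ e ∧ R < r ∧ 2 ^ orderOf (2 : ZMod r) < r ^ 8).card : ℝ)
      ≤ ((T.biUnion (fun r => (Icc 1 x).filter (fun e => r ∣ e))).card : ℝ) := by exact_mod_cast card_le_card hsub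
    _ ≤ ∑ r ∈ T, (((Icc 1 x).filter (fun e => r ∣ e)).card : ℝ) := by exact_mod_cast card_biUnion_le
    _ ≤ ∑ r ∈ T, x * g r := sum_le_sum hc
    _ = x * ∑ r ∈ T, g r := by rw [mul_sum]
    _ ≤ x * ε := mul_le_mul_of_nonneg_left h1.le (Nat.cast_nonneg x)
    _ = ε * x := mul_comm _ _

end Pool.Agent.Q224.GJ
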