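import Pool.Agent.Q150.GR.ENA
import Pool.Agent.Q224.GJ.Cell

/-!
# Project GJ (helper269), job GJ-ENA

This generalises `t_ENA` of `Pool/Agent/Q150/GR/ENA.lean` (helper150).
-/

set_option autoImplicit false
set_option linter.all false

open scoped Classical
open Finset Polynomial

namespace Pool.Agent.Q224.GJ

open Pool.Agent.Q269.GR (F2 dl Irn Dn pr xi Pfam dg Ce IsCe erT tn XA Fr)
open Pool.Agent.Q269.GJ
open Pool.Agent.Y164.PS (L sg)
open Pool.Agent.Y164.HG (Geo Del)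
open Pool.Agent.Q150.GR (mem_XA xa_move xa_inj xa_sub sum_ind card_split dec_XA)

variable {k : Type} [Field k] [Fintype k]

theorem t_ENA (h1 : S_CLA) (h2 : Pool.Agent.Q269.GR.S_DEC) (h3 : Pool.Agent.Q269.GR.S_TYA)
    (h4 : Pool.Agent.Q269.GR.S_ERA) (h5 : S_GEN) (h6 : Pool.Agent.Q269.GR.S_TNP)
    (h7 : Pool.Agent.Q269.GR.S_PRD) (h8 : Pool.Agent.Q269.GR.S_AVP) (h9 : Pool.Agent.Q269.GR.S_SMD) : S_ENA := by
  intro k _ _ n a N₀ H hq R hR ε hε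
  have hε2 : 0 < ε / 2 := by linarith
  have hΔ0 : Del a ≠ 0 := H.del_ne
  obtain ⟨N, hN⟩ : ∃ N, N = ∏ p ∈ R, p.1 := ⟨_, rfl⟩
  have hNodd : Odd N := by
    rw [hN]
    refine Finset.prod_induction _ Odd (fun a b ha hb => ha.mul hb) odd_one fun p hp => (hR.1 p hp).1
  have hN0 : 0 < N := hNodd.pos
  have hNd : ∀ p ∈ R, p.1 ∣ N := fun p hp => by rw [hN]; exact dvd_prod_of_mem _ hp
  have hT := h6.1
  obtain ⟨π, hπ⟩ : ∃ π : ℝ, π = ∏ p ∈ R, (1 - dl p.1) := ⟨_, rfl⟩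
  have hπ0 : 0 ≤ π := by
    rw [hπ]
    exact prod_nonneg fun p hp => by have := (h9.1 p.1 (hR.1 p hp).1 (hR.1 p hp).2.1).2; linarith
  have hπ1 : π ≤ 1 := by
    rw [hπ]
    exact prod_le_one (fun p hp => by have := (h9.1 p.1 (hR.1 p hp).1 (hR.1 p hp).2.1).2; linarith)
      (fun p hp => by have := (h9.1 p.1 (hR.1 p hp).1 (hR.1 p hp).2.1).1; linarith)
  filter_upwards [cell_unif h4 h5 h6 h7 H hq hε2, h3 k hq (Del a) hΔ0 (ε / 2) hε2,
    hT.eventually (Filter.eventually_ge_atTop (max N (∑ p ∈ R, p.1))),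
    hT.eventually (Filter.eventually_ge_atTop 1), Filter.eventually_ge_atTop 1] with
    m n1 n2 n3 n4 n5 f hf
  obtain ⟨Δ, hΔ⟩ : ∃ Δ, Δ = Del a := ⟨_, rfl⟩
  rw [← hΔ] at n1 hΔ0 n2 hf ⊢
  rw [← hπ]
  obtain ⟨hdeg, hcell⟩ := n1
  have ht8 : tn m ≤ tn m ^ 8 := Nat.le_self_pow (by norm_num) _
  have hNt : N ≤ tn m ^ 8 := (le_max_left _ _).trans (n3.trans ht8)
  have hSt : ∑ p ∈ R, p.1 ≤ tn m ^ 8 := (le_max_right _ _).trans (n3.trans ht8)
  have ht1 : (1 : ℝ) ≤ (tn m : ℝ) ^ 16 := one_le_pow₀ (by exact_mod_cast n4)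
  have hdec := dec_XA h2 h7 hΔ0 hdeg
    (fun D => π * (if f D then 1 else 0) - ε / 2)
    (fun D => if f D ∧ ∀ p ∈ R, KD p.1 (xi p.1 ^ p.2) a D = ⊥ then 1 else 0) (by
      intro M P0 mv hmv hc hX
      obtain ⟨c1, c2⟩ := hcell M P0 (by rw [← hmv]; exact hc) hX R hR hSt N hN0 hNt
      rw [← hmv] at c1 c2
      have hcla := h1 k H.hk H.hm hq Δ hΔ0 n H.hn H.hn3 a N M P0 mv R hc hNodd hNd hR c1 f hf
      rw [← hπ] at hcla
      obtain ⟨e, he⟩ : ∃ e : ℝ, e = ∑ p ∈ R, nn n P0 mv p.1 +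
        2 * erT N P0 mv (2 ^ eT n Δ M R) := ⟨_, rfl⟩
      rw [← he] at c2 hcla
      have he2 : e ≤ ε / 2 := by
        by_cases h0 : 0 ≤ e
        · nlinarith
        · push Not at h0
          linarith
      rw [sum_sub_distrib, ← mul_sum, sum_ind, sum_ind, sum_const, nsmul_eq_mul]
      have k1 : e * ((Fintype.piFinset (Ce P0 mv)).card : ℝ) ≤
          ((Fintype.piFinset (Ce P0 mv)).card : ℝ) * (ε / 2) := by
        rw [mul_comm]
        exact mul_le_mul_of_nonneg_left he2 (Nat.cast_nonneg _)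
      refine le_trans ?_ hcla
      linarith)
  rw [sum_sub_distrib, ← mul_sum, sum_ind, sum_ind, sum_const, nsmul_eq_mul] at hdec
  have hX : ((XA Δ m).card : ℝ) ≤ (Fintype.card k : ℝ) ^ m := by
    have k1 : ((XA Δ m).card : ℝ) ≤ ((Dn Δ m).card : ℝ) := by
      exact_mod_cast card_le_card xa_sub
    exact k1.trans (h8 k hq Δ hΔ0 m n5).1
  have hs := card_split (Δ := Δ) (n := m) f
  have hsub : (((XA Δ m).filter fun D => f D ∧ ∀ p ∈ R, KD p.1 (xi p.1 ^ p.2) a D = ⊥).card : ℝ) ≤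
      (((Dn Δ m).filter fun D => f D ∧ ∀ p ∈ R, KD p.1 (xi p.1 ^ p.2) a D = ⊥).card : ℝ) := by
    exact_mod_cast card_le_card (filter_subset_filter _ xa_sub)
  have k2 : π * (((Dn Δ m).filter fun D => f D).card : ℝ) ≤
      π * (((XA Δ m).filter f).card : ℝ) + ((Dn Δ m \ XA Δ m).card : ℝ) := by
    have k3 := mul_le_mul_of_nonneg_left hs hπ0
    have k4 : π * ((Dn Δ m \ XA Δ m).card : ℝ) ≤ 1 * ((Dn Δ m \ XA Δ m).card : ℝ) :=
      mul_le_mul_of_nonneg_right hπ1 (Nat.cast_nonneg _)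
    linarith
  have k5 : ((XA Δ m).card : ℝ) * (ε / 2) ≤ ε / 2 * (Fintype.card k : ℝ) ^ m := by
    rw [mul_comm]
    exact mul_le_mul_of_nonneg_left hX hε2.le
  linarith

end Pool.Agent.Q224.GJ
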