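import Pool.Agent.Q269.GJ.StE

/-!
# Project GJ of helper269, job GJ-END (by helper224)
-/

set_option autoImplicit false
set_option linter.all false

open scoped Classical
open Finset Polynomial Filter

namespace Pool.Agent.Q224.GJ

open Pool.Agent.Q269.GJ
open Pool.Agent.Q269.GR (F2 cf ev Un Eb dl IsRt gg Bt AA MM ts HU HG Herm hv own Irn Dn pr Fr xi Pfam dg
  Ce IsCe sT erT FxR owR A0R tn XA XB)
open Pool.Agent.Y164.PS (L sg Sf)
open Pool.Agent.Y164.HG (Geo Del Imp QQ Tau EW nb)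

/-- the finite product -/
theorem prod_ge {R y : ℕ} (h8 : ∀ r : ℕ, OO R r → 0 ≤ dl r ∧ dl r < 1) {Rp : Finset (ℕ × ℕ)}
    (hRp : ∀ p ∈ Rp, OO R p.1 ∧ p.1 ≤ y) (hc : ∀ r : ℕ, (Rp.filter fun p => p.1 = r).card ≤ r) :
    ∏ r ∈ (range (y + 1)).filter (OO R), (1 - dl r) ^ r ≤ ∏ p ∈ Rp, (1 - dl p.1) := by
  have hmap : ∀ p ∈ Rp, p.1 ∈ (range (y + 1)).filter (OO R) := by
    intro p hp
    rw [mem_filter, mem_range]
    exact ⟨by have := (hRp p hp).2; omega, (hRp p hp).1⟩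
  rw [← Finset.prod_fiberwise_of_maps_to hmap]
  refine Finset.prod_le_prod (fun r hr => ?_) (fun r hr => ?_)
  · exact pow_nonneg (by linarith [(h8 r (mem_filter.1 hr).2).2]) _
  · have h1 : ∏ p ∈ Rp.filter (fun p => p.1 = r), (1 - dl p.1) =
        (1 - dl r) ^ (Rp.filter (fun p => p.1 = r)).card := by
      rw [← Finset.prod_const]
      refine Finset.prod_congr rfl fun p hp => ?_
      rw [(mem_filter.1 hp).2]
    rw [h1]
    have h2 := h8 r (mem_filter.1 hr).2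
    exact pow_le_pow_of_le_one (by linarith) (by linarith) (hc r)

/-- **JOB GJ-END** -/
theorem t_END (h1 : S_ENA) (h2 : S_EB1) (h3 : S_EB2) (h4 : S_ADM)
    (h5 : S_ABS) (h6 : S_RPS) (h7 : S_IMP) (h8 : S_SMD) : S_END := by
  intro R
  obtain ⟨⟨y, hy⟩, htl0, -⟩ := h5 R
  set γ : ℝ := ∏ r ∈ (range (y + 1)).filter (OO R), (1 - dl r) ^ r - tl R y with hγ
  refine ⟨γ / 24, by linarith, ?_⟩
  intro k _ _ n a N H hq5
  haveI : Fact (Odd n) := ⟨H.hn⟩
  have hq4 : 4 ≤ Fintype.card k := by omega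
  obtain ⟨Rp, hRp, hRy, hRc, hRg⟩ := h6 R y
  obtain ⟨himp, hDn⟩ := h7 k n a N H
  obtain ⟨c', hc', hlow⟩ := Pool.Agent.Y164.HG.nb_lower H.hyp hq4
  have hε : 0 < c' * γ / 72 := by positivity
  have e1 := h1 k n a N H hq5 Rp hRp _ hε
  have e2 := h2 k n a N H hq5 R _ hε
  have e3 := h3 k n a N H hq5 R _ hε
  have e5 := Pool.Agent.Y164.HG.main_cnt H.hyp (G := fun D => TR H D) (W := EW n) (fun σ => H.dat σ)
    (fun σ => rfl) (fun σ σ' => rfl) (N : Pool.Agent.Y164.HG.F2) (fun σ => rfl) (fun σ _ => himp σ) hq4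
    (fun σ => H.conn σ) (1 / 12) (by norm_num)
  obtain ⟨f, hadm, hf⟩ : ∃ f : k[X] → Prop, AdmD (Del a) f ∧ ∀ D, f D ↔ TR H D :=
    ⟨_, h4 k n a N H, fun D => Iff.rfl⟩
  filter_upwards [e1, e2, e3, hlow, e5] with m g1 g2 g3 g4 g5 ho
  have g1' := g1 _ hadm
  have g2' := g2 _ hadm y
  have g5' := g5 (by
    have : ((m + N : ℕ) : Pool.Agent.Y164.HG.F2) = 1 := (ZMod.natCast_eq_one_iff_odd).2 ho
    rw [← this]
    push_cast
    rfl)
  set qn : ℝ := (Fintype.card k : ℝ) ^ m with hqn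
  have hDc : (((Sf k m).filter (nb (QQ a))).card : ℝ) = ((Dn (Del a) m).card : ℝ) := by
    rw [hDn m]
  have hDc2 : (((Sf k m).filter fun E => nb (QQ a) E ∧ TR H E).card : ℝ) =
      (((Dn (Del a) m).filter fun D => f D).card : ℝ) := by
    rw [hDn m, Finset.filter_filter]
    congr 2
    ext E
    simp only [mem_filter, hf]
  rw [hDc] at g4
  rw [hDc, hDc2] at g5'
  set A : Finset k[X] := (Dn (Del a) m).filter (fun D => f D) with hA
  set G : Finset k[X] := (Dn (Del a) m).filter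
    (fun D => TR H D ∧ ∀ r : ℕ, OO R r → GoodA r a D) with hG
  have hsub : (Dn (Del a) m).filter (fun D => f D ∧
      ∀ p ∈ Rp, KD p.1 (xi p.1 ^ p.2) a D = ⊥) ⊆ G ∪ ((Dn (Del a) m).filter (fun D =>
      f D ∧ ∃ r : ℕ, OO R r ∧ y < r ∧ r ≤ tn m ^ 8 ∧ ¬ GoodA r a D) ∪
      (Dn (Del a) m).filter (fun D =>
      ∃ r : ℕ, OO R r ∧ tn m ^ 8 < r ∧ ¬ GoodA r a D)) := by
    intro D hD
    rw [mem_filter] at hD
    obtain ⟨hD1, hD2, hD3⟩ := hD
    by_cases hall : ∀ r : ℕ, OO R r → GoodA r a D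
    · exact mem_union_left _ (mem_filter.2 ⟨hD1, (hf D).1 hD2, hall⟩)
    · push Not at hall
      obtain ⟨r, hr1, hr3⟩ := hall
      have hry : y < r := by
        by_contra hle
        exact hr3 (hRg k n a N H m D hD1 hD3 r hr1 (not_lt.1 hle))
      apply mem_union_right
      by_cases hrt : r ≤ tn m ^ 8
      · exact mem_union_left _ (mem_filter.2 ⟨hD1, hD2, r, hr1, hry, hrt, hr3⟩)
      · exact mem_union_right _ (mem_filter.2 ⟨hD1, r, hr1, not_le.1 hrt, hr3⟩)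
  have hcard := (card_le_card hsub).trans ((card_union_le _ _).trans
    (Nat.add_le_add_left (card_union_le _ _) _))
  have hcard' : ((((Dn (Del a) m).filter (fun D => f D ∧
      ∀ p ∈ Rp, KD p.1 (xi p.1 ^ p.2) a D = ⊥)).card : ℕ) : ℝ) ≤ (G.card : ℝ) +
      ((((Dn (Del a) m).filter (fun D =>
      f D ∧ ∃ r : ℕ, OO R r ∧ y < r ∧ r ≤ tn m ^ 8 ∧ ¬ GoodA r a D)).card : ℝ) +
      (((Dn (Del a) m).filter (fun D =>
      ∃ r : ℕ, OO R r ∧ tn m ^ 8 < r ∧ ¬ GoodA r a D)).card : ℝ)) := by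
    exact_mod_cast hcard
  have hA0 : (0 : ℝ) ≤ (A.card : ℝ) := Nat.cast_nonneg _
  have hpr := mul_le_mul_of_nonneg_right (prod_ge (h8 R).1 hRy hRc) hA0
  have hfin : γ * (A.card : ℝ) - 3 * (c' * γ / 72) * qn ≤ (G.card : ℝ) := by
    have : (∏ r ∈ (range (y + 1)).filter (OO R), (1 - dl r) ^ r) * (A.card : ℝ) =
        γ * (A.card : ℝ) + tl R y * (A.card : ℝ) := by
      rw [hγ]
      ring
    linarith
  have hγ0 : 0 < γ := hy
  have h9 : γ * ((1 / 6 - 1 / 12) * ((Dn (Del a) m).card : ℝ)) ≤ γ * (A.card : ℝ) :=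
    mul_le_mul_of_nonneg_left g5' hγ0.le
  have h10 : γ / 24 * (c' * qn) ≤ γ / 24 * ((Dn (Del a) m).card : ℝ) :=
    mul_le_mul_of_nonneg_left g4 (by positivity)
  have e : 3 * (c' * γ / 72) * qn = γ / 24 * (c' * qn) := by ring
  rw [e] at hfin
  have e' : γ * ((1 / 6 - 1 / 12) * ((Dn (Del a) m).card : ℝ)) =
      γ / 24 * ((Dn (Del a) m).card : ℝ) + γ / 24 * ((Dn (Del a) m).card : ℝ) := by ring
  rw [e'] at h9
  linarith

end Pool.Agent.Q224.GJ
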