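import Pool.Agent.Q269.GJ.StE
import Pool.Agent.Q149.GR.SMD

/-!
# Project GJ of helper269, job GJ-SMD (by helper224)
-/

set_option autoImplicit false
set_option linter.all false

open scoped Classical
open Finset

namespace Pool.Agent.Q224.GJ

open Pool.Agent.Q269.GJ
open Pool.Agent.Q269.GR (dl)

/-- **JOB GJ-SMD** -/
theorem t_SMD (h1 : Pool.Agent.Q269.GR.S_SMD) (h2 : Pool.Agent.Q269.GR.S_ORD) : S_SMD := by
  intro R
  refine ⟨fun r hr => h1.1 r hr.1 hr.2.1, ?_⟩
  have hs1 : Summable fun r : ℕ => if r ≤ R ∧ OO R r then (r : ℝ) * dl r else 0 := by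
    refine summable_of_ne_finset_zero (s := range (R + 1)) fun r hr => ?_
    rw [Finset.mem_range] at hr
    exact if_neg (fun h => by omega)
  refine Summable.of_nonneg_of_le (fun r => ?_) (fun r => ?_)
    (hs1.add ((h2 (3 / 8) (by norm_num)).mul_left 2))
  · split_ifs with h
    · exact mul_nonneg (Nat.cast_nonneg _) (h1.1 r h.1 h.2.1).1
    · exact le_rfl
  · by_cases h : OO R r
    · rw [if_pos h]
      by_cases hR : r ≤ R
      · rw [if_pos (⟨hR, h⟩ : r ≤ R ∧ OO R r)]
        have h3 : (0 : ℝ) ≤ 2 * (if Odd r then (2 : ℝ) ^ (-((3 / 8 : ℝ) * (orderOf (2 : ZMod r) : ℝ))) else 0) := by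
          rw [if_pos h.1]
          positivity
        linarith
      · rw [if_neg (fun h' => hR h'.1), zero_add, if_pos h.1]
        have h4 := (Pool.Agent.Q149.GR.dl_facts h.1 h.2.1).2.2
        have h5 := h.2.2 (by omega)
        have h0 := (Pool.Agent.Q149.GR.dl_facts h.1 h.2.1).1
        set f := orderOf (2 : ZMod r) with hf
        have h6 : (r : ℝ) ≤ (2 : ℝ) ^ ((1 / 8 : ℝ) * (f : ℝ)) := by
          have h7 : ((r : ℝ)) ^ 8 ≤ ((2 : ℝ) ^ ((1 / 8 : ℝ) * (f : ℝ))) ^ 8 := by
            have e1 : ((2 : ℝ) ^ ((1 / 8 : ℝ) * (f : ℝ))) ^ 8 = 2 ^ f := by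
              rw [← Real.rpow_natCast, ← Real.rpow_mul (by norm_num), ← Real.rpow_natCast]
              congr 1
              push_cast
              ring
            rw [e1]
            exact_mod_cast h5
          exact le_of_pow_le_pow_left₀ (by norm_num) (by positivity) h7
        calc (r : ℝ) * dl r ≤ (2 : ℝ) ^ ((1 / 8 : ℝ) * (f : ℝ)) *
              (2 * (2 : ℝ) ^ (-((1 / 2 : ℝ) * (f : ℝ)))) :=
              mul_le_mul h6 h4 h0 (by positivity)
          _ = 2 * ((2 : ℝ) ^ ((1 / 8 : ℝ) * (f : ℝ)) * (2 : ℝ) ^ (-((1 / 2 : ℝ) * (f : ℝ)))) := by ring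
          _ = 2 * (2 : ℝ) ^ (-((3 / 8 : ℝ) * (f : ℝ))) := by
              rw [← Real.rpow_add (by norm_num)]
              congr 2
              ring
    · rw [if_neg h, if_neg (fun h' => h h'.2), zero_add]
      split_ifs
      · positivity
      · simp

end Pool.Agent.Q224.GJ
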