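import Pool.Agent.Q269.GJ.StE

/-!
# Project GJ (helper269), job GJ-SMT
-/

set_option autoImplicit false
set_option linter.all false

open scoped Classical
open Finset

namespace Pool.Agent.Q224.GJ

open Pool.Agent.Q269.GJ

/-- the order of two is positive -/
theorem ord_pos {r : ℕ} (hr : Odd r) : 0 < orderOf (2 : ZMod r) := by
  have hc : Nat.Coprime 2 r := (Nat.coprime_two_left).2 hr
  have : NeZero r := ⟨by rintro rfl; exact absurd hr (by decide)⟩
  have h1 : ((ZMod.unitOfCoprime 2 hc : (ZMod r)ˣ) : ZMod r) = 2 := by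
    rw [ZMod.coe_unitOfCoprime]
    rfl
  rw [← h1, orderOf_units]
  exact orderOf_pos _

theorem dvd_two_pow {r : ℕ} : r ∣ 2 ^ orderOf (2 : ZMod r) - 1 := by
  have h1 : (2 : ZMod r) ^ orderOf (2 : ZMod r) = 1 := pow_orderOf_eq_one _
  rw [← ZMod.natCast_eq_zero_iff, Nat.cast_sub Nat.one_le_two_pow]
  push_cast
  rw [h1, sub_self]

/-- the constant -/
def ctB (B : ℕ) : ℕ := ∏ p ∈ (Icc 1 B).filter (fun p => p.Prime ∧ Odd p), (2 ^ (p - 1) - 1)

theorem ctB_ne (B : ℕ) : ctB B ≠ 0 := by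
  unfold ctB
  rw [prod_ne_zero_iff]
  intro p hp
  rw [mem_filter] at hp
  have h2 : 2 ≤ p := hp.2.1.two_le
  have h3 : 2 ^ 1 ≤ 2 ^ (p - 1) := Nat.pow_le_pow_right (by norm_num) (by omega)
  omega

theorem dvd_key {B r : ℕ} (hr : Odd r) (hB : ∀ p : ℕ, p.Prime → p ∣ r → p ≤ B) :
    r ∣ ctB B * orderOf (2 : ZMod r) := by
  have hr0 : r ≠ 0 := by rintro rfl; exact absurd hr (by decide)
  have ho := ord_pos hr
  obtain ⟨o, hod⟩ : ∃ o : ℕ, o = orderOf (2 : ZMod r) := ⟨_, rfl⟩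
  have hdiv : r ∣ 2 ^ o - 1 := by rw [hod]; exact dvd_two_pow
  rw [← hod] at ho ⊢
  rw [← Nat.factorization_le_iff_dvd hr0 (mul_ne_zero (ctB_ne B) (by omega)),
    Nat.factorization_mul (ctB_ne B) (by omega)]
  intro p
  rw [Finsupp.add_apply]
  by_cases hp : p.Prime ∧ p ∣ r
  · obtain ⟨hp, hpr⟩ := hp
    have : Fact p.Prime := ⟨hp⟩
    have hodd : Odd p := hr.of_dvd_nat hpr
    have hp3 : 3 ≤ p := by
      rcases hp.two_le.lt_or_eq with h | h
      · exact h
      · rw [← h] at hodd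
        exact absurd hodd (by decide)
    have hmem : p ∈ (Icc 1 B).filter (fun p => p.Prime ∧ Odd p) :=
      mem_filter.2 ⟨mem_Icc.2 ⟨by omega, hB p hp hpr⟩, hp, hodd⟩
    have hd : 2 ^ (p - 1) - 1 ∣ ctB B := dvd_prod_of_mem _ hmem
    have h1 : (2 ^ (p - 1) - 1).factorization p ≤ (ctB B).factorization p := by
      have h3 : 2 ^ 1 ≤ 2 ^ (p - 1) := Nat.pow_le_pow_right (by norm_num) (by omega)
      exact (Nat.factorization_le_iff_dvd (by omega) (ctB_ne B)).2 hd p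
    have hnd : ¬ p ∣ 2 ^ (p - 1) := by
      intro h
      have := (Nat.prime_dvd_prime_iff_eq hp Nat.prime_two).1 (hp.dvd_of_dvd_pow h)
      omega
    have hf : p ∣ 2 ^ (p - 1) - 1 := by
      have h4 : Nat.Coprime 2 p := (Nat.coprime_two_left).2 hodd
      have h5 := Nat.ModEq.pow_totient h4
      rw [Nat.totient_prime hp] at h5
      exact (Nat.modEq_iff_dvd' Nat.one_le_two_pow).1 h5.symm
    have hlt : 1 < 2 ^ (p - 1) := Nat.one_lt_two_pow (by omega)
    have h2 := padicValNat.pow_sub_pow (p := p) (x := 2 ^ (p - 1)) (y := 1) hodd hlt hf hnd (n := o) (by omega)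
    rw [one_pow] at h2
    have h6 : 2 ^ o - 1 ∣ (2 ^ (p - 1)) ^ o - 1 := by
      rw [← pow_mul, mul_comm, pow_mul]
      have := Nat.sub_dvd_pow_sub_pow (2 ^ o) 1 (p - 1)
      rwa [one_pow] at this
    have hne : (2 ^ (p - 1)) ^ o - 1 ≠ 0 := by
      have : 1 < (2 ^ (p - 1)) ^ o := Nat.one_lt_pow (by omega) hlt
      omega
    have h7 : r.factorization p ≤ ((2 ^ (p - 1)) ^ o - 1).factorization p :=
      (Nat.factorization_le_iff_dvd hr0 hne).2 (hdiv.trans h6) p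
    rw [Nat.factorization_def _ hp, Nat.factorization_def _ hp] at h7
    rw [Nat.factorization_def _ hp, Nat.factorization_def _ hp] at h1
    rw [Nat.factorization_def _ hp, Nat.factorization_def _ hp, Nat.factorization_def _ hp]
    omega
  · have h0 : r.factorization p = 0 := by
      rw [Nat.factorization_eq_zero_iff]
      tauto
    omega

theorem t_SMT : S_SMT := by
  intro B
  obtain ⟨C, hC⟩ : ∃ C : ℝ, C = (ctB B : ℝ) := ⟨_, rfl⟩
  have hC0 : 0 < C := by rw [hC]; exact_mod_cast Nat.pos_of_ne_zero (ctB_ne B)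
  have hb : (1 : ℝ) < (2 : ℝ) ^ (1 / C) := Real.one_lt_rpow (by norm_num) (by positivity)
  have h1 := tendsto_pow_const_div_const_pow_of_one_lt 8 hb
  have h2 : ∀ᶠ r : ℕ in Filter.atTop, (r : ℝ) ^ 8 / ((2 : ℝ) ^ (1 / C)) ^ r ≤ 1 :=
    h1.eventually_le_const (by norm_num)
  obtain ⟨R, hR⟩ := Filter.eventually_atTop.1 h2
  refine ⟨R, ?_⟩
  intro e he hB r hre hRr
  have hr : Odd r := he.of_dvd_nat hre
  have hk := dvd_key hr (fun p hp hpr => hB p hp (hpr.trans hre))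
  have ho := ord_pos hr
  have h3 := hR r hRr.le
  rw [div_le_one (by positivity), ← Real.rpow_natCast, ← Real.rpow_natCast, ← Real.rpow_mul (by norm_num)] at h3
  have h4 : (r : ℝ) ≤ C * orderOf (2 : ZMod r) := by
    rw [hC]
    exact_mod_cast Nat.le_of_dvd (Nat.mul_pos (Nat.pos_of_ne_zero (ctB_ne B)) ho) hk
  have h5 : (2 : ℝ) ^ (1 / C * r) ≤ (2 : ℝ) ^ ((orderOf (2 : ZMod r) : ℕ) : ℝ) := by
    refine Real.rpow_le_rpow_of_exponent_le (by norm_num) ?_
    rw [one_div, inv_mul_le_iff₀ hC0]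
    exact h4
  have h6 := h3.trans h5
  rw [Real.rpow_natCast, Real.rpow_natCast] at h6
  exact_mod_cast h6

end Pool.Agent.Q224.GJ
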